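import Mathlib
import Pool.Agent.W42.RG.Defs2

set_option autoImplicit false
set_option linter.unusedSectionVars false
set_option linter.unusedVariables false

/-!
Project LY (helper42), parts LY-RAon and LY-RBon: the reductions relative to an invariant σ-algebra.
-/

namespace Pool.Agent.W335.LY.Ron

open Finset Filter Topology MeasureTheory Pool.Agent.W42.RN Pool.Agent.W42.RL Pool.Agent.W42.RG

section

variable {X : Type} {m : MeasurableSpace X} [mX : MeasurableSpace X] {μ : Measure X}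

/-- `T` as an `m`-measurable equivalence -/
def Tm (T : X ≃ᵐ X) (hTm : Measurable[m, m] T) (hTm' : Measurable[m, m] T.symm) :
    @MeasurableEquiv X X m m :=
  @MeasurableEquiv.mk X X m m T.toEquiv hTm hTm'

theorem prob_trim [IsProbabilityMeasure μ] (hm : m ≤ mX) :
    @IsProbabilityMeasure X m (μ.trim hm) := by
  refine @IsProbabilityMeasure.mk X m (μ.trim hm) ?_
  rw [trim_measurableSet_eq hm (@MeasurableSet.univ X m)]
  exact measure_univ

theorem meas_pw (T : X ≃ᵐ X) (hTm : Measurable[m, m] T) (hTm' : Measurable[m, m] T.symm) (n : ℤ) :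
    Measurable[m, m] (pw T n) := by
  obtain ⟨k, rfl | rfl⟩ := n.eq_nat_or_neg
  · rw [pw_nat T k]
    exact @Measurable.iterate X m T hTm k
  · rw [pw_neg T k]
    exact @Measurable.iterate X m T.symm hTm' k

theorem rf_trim (hm : m ≤ mX) {T : X ≃ᵐ X} (hTm : Measurable[m, m] T)
    (hTm' : Measurable[m, m] T.symm) {Z : ℂ → X → X} {ω : ℂ} (hz : RFOn m μ T Z ω) :
    @RF X m (μ.trim hm) (Tm T hTm hTm') Z ω := by
  refine @RF.mk X m (μ.trim hm) (Tm T hTm hTm') Z ω (fun ζ => mp_trim hm (hz.mp ζ) (hz.meas ζ))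
    ?_ ?_ ?_ ?_
  · intro A hA
    exact (ae_iff_trim hm (hz.meas 0 hA) hA).2 (hz.zero A hA)
  · intro ζ s t A hA
    exact (ae_iff_trim hm (hz.meas _ hA) (hz.meas _ (hz.meas _ hA))).2 (hz.line ζ s t A hA)
  · intro f hf ζ₀
    have hfm : Measurable[m] f := @Bd.meas X m f hf
    have h1 := hz.cont f ⟨hfm, @Bd.bdd X m f hf⟩ ζ₀
    refine h1.congr fun v => ?_
    rw [int_trim hm]
    exact measurable_norm.comp ((hfm.comp (hz.meas v)).sub (hfm.comp (hz.meas ζ₀)))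
  · intro ζ A hA
    exact (ae_iff_trim hm ((hz.meas ζ) (hTm hA)) (hTm (hz.meas _ hA))).2 (hz.eqv ζ A hA)

theorem shears_trim (hm : m ≤ mX) {T : X ≃ᵐ X} (hTm : Measurable[m, m] T)
    (hTm' : Measurable[m, m] T.symm) {Z : ℂ → X → X} {ω : ℂ} (hz : RFOn m μ T Z ω)
    {x : ℝ → ℂ → X → X} (hxm : ∀ ε ζ, Measurable[m, m] (x ε ζ)) {r : ℤ → ℝ}
    (hs : RShearsOn m μ T x Z ω r) :
    @RShears X m (μ.trim hm) (Tm T hTm hTm') x Z ω r := by
  intro f hf ζ U δ hU hδ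
  have hfm : Measurable[m] f := @Bd.meas X m f hf
  obtain ⟨ε₀, hε₀, h1⟩ := hs f ⟨hfm, @Bd.bdd X m f hf⟩ ζ U δ hU hδ
  refine ⟨ε₀, hε₀, fun ε hε hεlt n hn => ?_⟩
  have h2 := h1 ε hε hεlt n hn
  rw [int_trim hm]
  · exact h2
  · exact measurable_norm.comp ((hfm.comp ((meas_pw T hTm hTm' n).comp (hxm ε ζ))).sub
      (hfm.comp ((hz.meas _).comp (meas_pw T hTm hTm' n))))

theorem aeeq_trim (hm : m ≤ mX) {f g : X → ℂ} (hf : Measurable[m] f) (hg : Measurable[m] g) :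
    f =ᵐ[μ.trim hm] g ↔ f =ᵐ[μ] g := by
  constructor
  · exact fun h => ae_eq_of_ae_eq_trim h
  · exact fun h => StronglyMeasurable.ae_eq_trim_of_stronglyMeasurable hm
      hf.stronglyMeasurable hg.stronglyMeasurable h

theorem eig_trim (hm : m ≤ mX) {z : ℝ → X → X} (hz : ∀ u, Measurable[m, m] (z u)) {f : X → ℂ}
    (hf : f ∈ @EigF X m (μ.trim hm) z) :
    BdOn m f ∧ ∃ χ : ℝ → ℂ, (∀ u, ‖χ u‖ = 1) ∧
      ∀ u : ℝ, (fun p => f (z u p)) =ᵐ[μ] fun p => χ u * f p := by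
  obtain ⟨hB, χ, hχ, h⟩ := hf
  have hfm : Measurable[m] f := @Bd.meas X m f hB
  exact ⟨⟨hfm, @Bd.bdd X m f hB⟩, χ, hχ, fun u => ae_eq_of_ae_eq_trim (h u)⟩

theorem real_trim (hm : m ≤ mX) {A : Set X} (hA : MeasurableSet[m] A) :
    (μ.trim hm).real A = μ.real A := by
  rw [measureReal_def, measureReal_def, trim_measurableSet_eq hm hA]

theorem inter_meas {T : X → X} (hTm : Measurable[m, m] T) (k : ℕ) (g : ℕ → ℕ) (A : ℕ → Set X)
    (hA : ∀ i, MeasurableSet[m] (A i)) :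
    MeasurableSet[m] (⋂ i ∈ Finset.range (k + 1), T^[∑ j ∈ Finset.range i, g j] ⁻¹' A i) := by
  refine @MeasurableSet.biInter X ℕ m _ _ (Set.to_countable _) fun i _ => ?_
  exact (@Measurable.iterate X m T hTm _) (hA i)

/-- mixing for the trimmed measure from mixing on `m`-measurable sets -/
theorem mixOn_down (hm : m ≤ mX) {T : X → X} (hTm : Measurable[m, m] T) {Q Q' : Set X → Prop}
    (hQ : ∀ B, MeasurableSet[m] B → Q' B → Q B) {k : ℕ}
    (h : MixOn μ T (fun B => MeasurableSet[m] B ∧ Q B) k) :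
    @MixOn X m (μ.trim hm) T Q' k := by
  intro A hA ε hε
  obtain ⟨N, hN⟩ := h A (fun i => ⟨hm _ (hA i).1, (hA i).1, hQ _ (hA i).1 (hA i).2⟩) ε hε
  refine ⟨N, fun g hg => ?_⟩
  have h1 := hN g hg
  rw [real_trim hm (inter_meas hTm k g A fun i => (hA i).1),
    prod_congr rfl fun i _ => real_trim hm (hA i).1]
  exact h1

theorem mixOn_up (hm : m ≤ mX) {T : X → X} (hTm : Measurable[m, m] T) {k : ℕ}
    (h : @MixOn X m (μ.trim hm) T (fun _ => True) k) :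
    MixOn μ T (fun B => MeasurableSet[m] B) k := by
  intro A hA ε hε
  obtain ⟨N, hN⟩ := h A (fun i => ⟨(hA i).2, trivial⟩) ε hε
  refine ⟨N, fun g hg => ?_⟩
  have h1 := hN g hg
  rw [real_trim hm (inter_meas hTm k g A fun i => (hA i).2),
    prod_congr rfl fun i _ => real_trim hm (hA i).2] at h1
  exact h1

end

theorem t_RAon (h : S_RA) : S_RAon := by
  intro X m mX μ hμ T hT hm hTm hTm' Z ω hω hz x hx hxm r hr hs ι₁ ι₂ S₁ S₂ hS₁ hS₂ hS₁m hS₂m
    hE₁ hE₂ k hmix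
  refine mixOn_up hm hTm ?_
  refine @h X m (μ.trim hm) (prob_trim hm) (Tm T hTm hTm') (mp_trim hm hT hTm) Z ω hω
    (rf_trim hm hTm hTm' hz) x (fun ε ζ => mp_trim hm (hx ε ζ) (hxm ε ζ)) r hr
    (shears_trim hm hTm hTm' hz hxm hs) ι₁ ι₂ S₁ S₂ (fun a => mp_trim hm (hS₁ a) (hS₁m a))
    (fun a => mp_trim hm (hS₂ a) (hS₂m a)) ?_ ?_ k ?_
  · intro f hf a
    have h1 := eig_trim hm (fun u => hz.meas _) hf
    exact (aeeq_trim hm (h1.1.1.comp (hS₁m a)) h1.1.1).2 (hE₁ f h1.1 h1.2 a)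
  · intro f hf a
    have h1 := eig_trim hm (fun u => hz.meas _) hf
    exact (aeeq_trim hm (h1.1.1.comp (hS₂m a)) h1.1.1).2 (hE₂ f h1.1 h1.2 a)
  · refine mixOn_down hm hTm ?_ hmix
    intro B hB hQ
    exact ⟨fun a => (ae_iff_trim hm (hS₁m a hB) hB).1 (hQ.1 a),
      fun a => (ae_iff_trim hm (hS₂m a hB) hB).1 (hQ.2 a)⟩

theorem t_RBon (h : S_RB) : S_RBon := by
  intro X m mX μ hμ T hT hm hTm hTm' Z ω hω hωn hz hadd x hx hxm r hr hs k hmix
  refine mixOn_up hm hTm ?_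
  refine @h X m (μ.trim hm) (prob_trim hm) (Tm T hTm hTm') (mp_trim hm hT hTm) Z ω hω hωn
    (rf_trim hm hTm hTm' hz) ?_ x (fun ε ζ => mp_trim hm (hx ε ζ) (hxm ε ζ)) r hr
    (shears_trim hm hTm hTm' hz hxm hs) k ?_
  · intro ζ ζ' A hA
    exact (ae_iff_trim hm (hz.meas _ hA) (hz.meas _ (hz.meas _ hA))).2 (hadd ζ ζ' A hA)
  · refine mixOn_down hm hTm ?_ hmix
    intro B hB hQ ζ
    exact (ae_iff_trim hm (hz.meas ζ hB) hB).1 (hQ ζ)

end Pool.Agent.W335.LY.Ron
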